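import Pool.Agent.RHO.Stmts4

/-!
# MP_ca8ef3_an, stage 3: row HS1 (existence of the kernel system)
-/

set_option autoImplicit false

namespace Pool.Agent.RHO.H02d

open Finset

theorem hs1 (hG : GR3Stmt) (hP : PS1Stmt) (hK : KSYStmt) (hC : CRDStmt) (h1 : NM1Stmt)
    (h2 : NM2Stmt) (h3 : NM3Stmt) (h4 : NM4Stmt) : HS1Stmt := by
  intro a ha
  obtain ⟨n1, _, n3⟩ := h1 a ha
  obtain ⟨m1, _, _, _, _, _, m7, _⟩ := h2 a ha
  obtain ⟨k1, k2, k3, k4, k5, k6, k7⟩ := h4 a ha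
  obtain ⟨G⟩ := hG (qA a) (pD a) (qT a) k4 k5
  obtain ⟨S⟩ := hP (Fin (qT a) × Fin (qA a)) (pD a) (pm a) (qk a) (pt a) (2 ^ (32 * a + 104))
    (qT a) G m1 Nat.one_le_two_pow k1 k2 k3 (h3 a ha)
  have hpm : (2 : ℝ) ≤ 2 ^ pm a := by
    calc (2 : ℝ) = 2 ^ 1 := by norm_num
      _ ≤ 2 ^ pm a := pow_le_pow_right₀ (by norm_num) m1
  have hr0 : (0 : ℝ) < 1 - 1 / 2 ^ pm a := by
    have : (1 : ℝ) / 2 ^ pm a ≤ 1 / 2 := one_div_le_one_div_of_le (by norm_num) hpm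
    linarith
  have hr1 : (1 - 1 / 2 ^ pm a : ℝ) < 1 := by
    have : (0 : ℝ) < 1 / 2 ^ pm a := by positivity
    linarith
  have hg : 1 ≤ 2 ^ a * (a + 5) := Nat.one_le_iff_ne_zero.mpr (by positivity)
  obtain ⟨Q⟩ := hK _ _ _ _ (pD a) (2 ^ a * (a + 5)) (pt a) (qT a) _ (1 / 2 ^ (42 + 13 * a)) S
    hr0 hr1 hg m7 k6 n3
  obtain ⟨hF, hcard⟩ := hC (Fin (qT a) × Fin (qA a)) (pD a) (qk a + 1 * pm a) G.s
  rw [n1] at Q
  refine ⟨_, _, hF, inferInstance, Q, Fintype.card_pos, ?_⟩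
  refine hcard.trans (Nat.pow_le_pow_right (by norm_num) ?_)
  have hc : Fintype.card (Fin (qT a) × Fin (qA a)) = qT a * qA a := by
    rw [Fintype.card_prod, Fintype.card_fin, Fintype.card_fin]
  rw [hc]
  exact k7

end Pool.Agent.RHO.H02d
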