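import Pool.Agent.RHO.Stmts4

/-!
# MP_ca8ef3_an, stage 3: row PS1
-/

set_option autoImplicit false

namespace Pool.Agent.RHO.H02d

open Finset

theorem abs_sg2 (c : ZMod 2) : |sg2 c| = 1 := by
  unfold sg2
  split_ifs <;> simp

theorem ps1 (hA : AVSStmt) (hB : PVBStmt) (hQ : QDFStmt) (hT : BDTStmt) (hN : NBCStmt)
    (hZ1 : AFZStmt) (hX : KE1Stmt) (hI : KI1Stmt) : PS1Stmt := by
  intro ι _ _ D m k1 t N T G hm hK1 hK2 hT1 hT2 hK3
  obtain ⟨_, _, _, hTT, hsd, huq, _⟩ := hQ ι (k1 + 1 * m)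
  have hTT' : ∀ S : Fin D → Qd ι (k1 + 1 * m), S + S = 0 := fun S => funext fun i => hTT (S i)
  have h1 : (2 : ℕ) ^ (k1 + 1) ≤ 2 ^ (k1 + 1 * m + 1) :=
    Nat.pow_le_pow_right (by norm_num) (by omega)
  have hpm : (2 : ℝ) ≤ 2 ^ m := by
    calc (2 : ℝ) = 2 ^ 1 := by norm_num
      _ ≤ 2 ^ m := pow_le_pow_right₀ (by norm_num) hm
  have hr0 : (0 : ℝ) < 1 - 1 / 2 ^ m := by
    have : (1 : ℝ) / 2 ^ m ≤ 1 / 2 := one_div_le_one_div_of_le (by norm_num) hpm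
    linarith
  have hr1 : (1 - 1 / 2 ^ m : ℝ) < 1 := by
    have : (0 : ℝ) < 1 / 2 ^ m := by positivity
    linarith
  have hrep : ∀ (x y : Stt G.s (k1 + 1 * m)) (Z : Finset (Pt ι × Fin D)),
      x.1.2 + y.1.2 = chn (k1 + 1 * m) Z → Z.card ≤ T →
      KT m 1 k1 (x.1.2 + y.1.2) = (1 - 1 / 2 ^ m : ℝ) ^ Z.card := by
    intro x y Z hZ hc
    rw [hZ]
    refine hX ι D m k1 Z ?_ (by omega)
    exact hZ1 ι D T G Z x.1.1 y.1.1 hc
      (hT ι D (k1 + 1 * m) G.s x.1 y.1 Z G.aff x.2 y.2 hZ (by omega))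
  refine ⟨{
    σ := fun ω x => sgT ω x.1.2
    K := fun x y => KT m 1 k1 (x.1.2 + y.1.2)
    abs_σ := ?_
    avg := ?_
    K_nonneg := ?_
    α := ea
    β := eb G.s
    hαβ := ?_
    gir := G.gir
    vx := fun x => x.1.1
    lab := lb G.s
    lab_inc := ?_
    lab_inj := ?_
    nb := fun x i => ⟨(ot G.s x.1.1 i, x.1.2 + chn (k1 + 1 * m) {lb G.s x.1.1 i}),
      (hN ι D (k1 + 1 * m) G.s G.aff).2 x.1 i x.2⟩
    rep := fun x y Z => x.1.2 + y.1.2 = chn (k1 + 1 * m) Z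
    rep_nb := ?_
    rep_symm := ?_
    rep_trans := ?_
    rep_uniq := ?_
    rep_K := hrep
    K_rep := ?_
    rep_bd := ?_
    base := ⟨(Sum.inl 0, 0), (hN ι D (k1 + 1 * m) G.s G.aff).1⟩ }⟩
  · intro ω x
    unfold sgT
    rw [Finset.abs_prod]
    exact Finset.prod_eq_one fun i _ => abs_sg2 _
  · intro x y
    exact hA ι D m 1 k1 x.1.2 y.1.2
  · intro x y
    exact Finset.prod_nonneg fun i _ => (hB ι m 1 k1 _).1
  · intro e
    exact Sum.inl_ne_inr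
  · rintro (p | l) i
    · exact Or.inl rfl
    · refine Or.inr ?_
      change Sum.inr (G.s i ((G.s i).symm l)) = Sum.inr l
      rw [Equiv.apply_symm_apply]
  · rintro (p | l) i j hij
    · exact congrArg Prod.snd hij
    · exact congrArg Prod.snd hij
  · intro u i
    change u.1.2 + (u.1.2 + chn (k1 + 1 * m) {lb G.s u.1.1 i}) = _
    rw [← add_assoc, hTT', zero_add]
  · intro x y Z hZ
    exact (add_comm _ _).trans hZ
  · intro x y z Z Z' hZ hZ'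
    rw [hsd, ← hZ, ← hZ']
    have : x.1.2 + y.1.2 + (y.1.2 + z.1.2) = x.1.2 + z.1.2 + (y.1.2 + y.1.2) := by abel
    rw [this, hTT', add_zero]
  · intro x y Z Z' hZ hZ' hc
    exact huq D Z Z' (hZ.symm.trans hZ') (by omega)
  · intro x y hxy
    obtain ⟨Z, hZc, hZ⟩ := hI ι D m k1 t N (x.1.2 + y.1.2) hm hK1 hK2 hK3 hxy
    have h2 := hrep x y Z hZ (hZc.trans hT2)
    have h3 : (1 - 1 / 2 ^ m : ℝ) ^ t ≤ (1 - 1 / 2 ^ m : ℝ) ^ Z.card := h2 ▸ hxy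
    exact ⟨Z, (pow_le_pow_iff_right_of_lt_one₀ hr0 hr1).mp h3, hZ⟩
  · intro x y Z hZ hc v
    exact hT ι D (k1 + 1 * m) G.s x.1 y.1 Z G.aff x.2 y.2 hZ (by omega) v

end Pool.Agent.RHO.H02d
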