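import Pool.Agent.Helper2_RHO3.Final
import Pool.Agent.Helper2_RHO4.PS1
import Pool.Agent.Helper2_RHO4.HS1
import Pool.Agent.Helper56_RHO4.SU1
import Pool.Agent.Helper56_RHO4.PV1
import Pool.Agent.Helper56_RHO4.KE1
import Pool.Agent.Helper48_RHO4.CPL
import Pool.Agent.Helper33_RHO4.FAR
import Pool.Agent.Helper48_RHO4.SPN
import Pool.Agent.Helper48_RHO4.KIL
import Pool.Agent.Helper33_RHO4.CHB
import Pool.Agent.Helper33_RHO4.GLU
import Pool.Agent.Helper27_RHO4.HSL
import Pool.Agent.Helper33_RHO4.IV1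
import Pool.Agent.Helper59_RHO4.ROH
import Pool.Agent.Helper59_RHO4.KI1
import Pool.Agent.Helper85_RHO4.MG5
import Pool.Agent.Helper85_RHO4.MG6
import Pool.Agent.Helper28_RHO4.WSQ
import Pool.Agent.Helper15_RHO4.GR3
import Pool.Agent.Helper97_RHO4.PTZ
import Pool.Agent.Helper36_RHO4.NM3
import Pool.Agent.Helper9_RHO4.NM4

/-!
# MP_ca8ef3_an, stage 3: existence of the kernel system with affine factors (final assembly)
-/

set_option autoImplicit false

namespace Pool.Agent.RHO.H02d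

open H02c (pvb)

/-- The kernel system exists: `HasK a (2 ^ (8300 a ^ 2))` for all `a ≥ 4`. -/
theorem hs1_final : HS1Stmt := by
  have rmb := H56c.rmb
  have rmc := H10c.rmc rmb
  have dua' := dua rmb
  have pvb' := pvb rmb
  have qdf := H56c.qdf dua'
  have avs := H75c.avs rmb qdf
  have bdt := H10c.bdt rmc dua' qdf
  have nbc' := nbc rmc qdf
  have crd := H54c.crd qdf
  have ksy := H33c.ksy H33c.gco
  have ke1 := H56d.ke1 qdf pvb' H56d.su1 (H56d.pv1 dua')
  have glu := H33d.glu rmb dua' H33d.chb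
  have kil := H48d.kil rmb H48d.cpl H33d.far (H48d.spn rmb)
  have iv1 := H33d.iv1 (H27d.hsl glu kil) pvb'
  have ki1 := H59d.ki1 iv1 (H59d.roh pvb' rmb) pvb' qdf
  have afz := H97d.afz H97d.ptz
  have gr3 := H15d.gr3 H85d.mg5 (H85d.mg6 H85c.mg3) (H28d.wsq H56c.smb) H65c.mg2 H56c.smb
    H92c.trl
  exact hs1 gr3 (ps1 avs pvb' qdf bdt nbc' afz ke1 ki1) ksy crd H75c.nm1 H54c.nm2 H36d.nm3
    H9d.nm4

end Pool.Agent.RHO.H02d
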